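import Mathlib

set_option autoImplicit false

/-!
# A determinant inequality

If in every row `i` of a real (here: rational) square matrix the positive entries sum to at most `c i`
and the negative entries sum to at least `- c i`, then `|det A| ≤ ∏ c i`.
-/

namespace Pool.Agent.E8helper66.Schinzel

open Finset

/-- rows with positive part and negative part of sum at most `c i` -/
def RowBound {m k : ℕ} (A : Matrix (Fin m) (Fin k) ℚ) (c : Fin m → ℚ) : Prop :=
  ∀ i, ∑ j, max (A i j) 0 ≤ c i ∧ ∑ j, max (-A i j) 0 ≤ c i

theorem RowBound.nonneg {m k : ℕ} {A : Matrix (Fin m) (Fin k) ℚ} {c : Fin m → ℚ}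
    (h : RowBound A c) (i : Fin m) : 0 ≤ c i :=
  le_trans (Finset.sum_nonneg fun _ _ => le_max_right _ _) (h i).1

/-- deleting the first row and one column -/
theorem RowBound.minor {m : ℕ} {A : Matrix (Fin (m + 1)) (Fin (m + 1)) ℚ} {c : Fin (m + 1) → ℚ}
    (h : RowBound A c) (a : Fin (m + 1)) :
    RowBound (A.submatrix Fin.succ a.succAbove) (fun i => c i.succ) := by
  intro i
  have h1 := h i.succ
  rw [Fin.sum_univ_succAbove _ a, Fin.sum_univ_succAbove _ a] at h1
  have p1 : 0 ≤ max (A i.succ a) 0 := le_max_right _ _
  have p2 : 0 ≤ max (-A i.succ a) 0 := le_max_right _ _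
  simp only [Matrix.submatrix_apply]
  constructor <;> linarith [h1.1, h1.2]

theorem sum_single_update {m : ℕ} (f : Fin m → ℚ) (b : Fin m) (s : ℚ) :
    ∑ j, max (Function.update f b (f b + s) j) 0 ≤ ∑ j, max (f j) 0 + max s 0 := by
  rw [← Finset.add_sum_erase _ _ (Finset.mem_univ b), ← Finset.add_sum_erase _ (fun j => max (f j) 0) (Finset.mem_univ b)]
  rw [Function.update_self]
  have e : ∑ j ∈ univ.erase b, max (Function.update f b (f b + s) j) 0
      = ∑ j ∈ univ.erase b, max (f j) 0 := by
    apply Finset.sum_congr rfl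
    intro j hj
    rw [Function.update_of_ne (Finset.ne_of_mem_erase hj)]
  rw [e]
  have : max (f b + s) 0 ≤ max (f b) 0 + max s 0 := by
    apply max_le
    · exact add_le_add (le_max_left _ _) (le_max_left _ _)
    · exact add_nonneg (le_max_right _ _) (le_max_right _ _)
  linarith

/-- adding one column to another, deleting the first row and the former column -/
theorem RowBound.merge {m : ℕ} {A : Matrix (Fin (m + 1)) (Fin (m + 1)) ℚ} {c : Fin (m + 1) → ℚ}
    (h : RowBound A c) (a : Fin (m + 1)) (b : Fin m) :
    RowBound ((A.updateCol (a.succAbove b) (fun k => A k (a.succAbove b) + A k a)).submatrix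
      Fin.succ a.succAbove) (fun i => c i.succ) := by
  intro i
  have h1 := h i.succ
  rw [Fin.sum_univ_succAbove _ a, Fin.sum_univ_succAbove _ a] at h1
  have e1 : ∀ j, (A.updateCol (a.succAbove b) (fun k => A k (a.succAbove b) + A k a)).submatrix
      Fin.succ a.succAbove i j =
      Function.update (fun j => A i.succ (a.succAbove j)) b (A i.succ (a.succAbove b) + A i.succ a) j := by
    intro j
    simp only [Matrix.submatrix_apply, Matrix.updateCol_apply]
    by_cases hj : j = b
    · subst hj; simp
    · have : a.succAbove j ≠ a.succAbove b := fun h => hj (Fin.succAbove_right_injective h)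
      simp [this, hj]
  have e2 : ∀ j, -Function.update (fun j => A i.succ (a.succAbove j)) b
      (A i.succ (a.succAbove b) + A i.succ a) j =
      Function.update (fun j => -A i.succ (a.succAbove j)) b
        (-A i.succ (a.succAbove b) + -A i.succ a) j := by
    intro j
    by_cases hj : j = b
    · subst hj; simp; ring
    · simp [hj]
  have s1 := sum_single_update (fun j => A i.succ (a.succAbove j)) b (A i.succ a)
  have s2 := sum_single_update (fun j => -A i.succ (a.succAbove j)) b (-A i.succ a)
  simp only [e1, e2]
  constructor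
  · linarith [h1.1]
  · linarith [h1.2]

theorem comb_bound {m : ℕ} (r C : Fin (m + 1) → ℚ) (c K : ℚ) (hp : ∑ j, max (r j) 0 ≤ c)
    (hn : ∑ j, max (-r j) 0 ≤ c) (h1 : ∀ j, |C j| ≤ K) (h2 : ∀ a b, |C a - C b| ≤ K) :
    |∑ j, r j * C j| ≤ c * K := by
  have hK : 0 ≤ K := le_trans (abs_nonneg _) (h1 0)
  have hc : 0 ≤ c := le_trans (Finset.sum_nonneg fun _ _ => le_max_right _ _) hp
  obtain ⟨a, -, ha⟩ := Finset.exists_max_image univ C ⟨0, mem_univ _⟩
  obtain ⟨b, -, hb⟩ := Finset.exists_min_image univ C ⟨0, mem_univ _⟩
  obtain ⟨M, hM⟩ : ∃ M, M = max (C a) 0 := ⟨_, rfl⟩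
  obtain ⟨L, hL⟩ : ∃ L, L = min (C b) 0 := ⟨_, rfl⟩
  have hM0 : 0 ≤ M := hM ▸ le_max_right _ _
  have hL0 : L ≤ 0 := hL ▸ min_le_right _ _
  have hCM : ∀ j, C j ≤ M := fun j => (ha j (mem_univ _)).trans (hM ▸ le_max_left _ _)
  have hCL : ∀ j, L ≤ C j := fun j => le_trans (hL ▸ min_le_left _ _) (hb j (mem_univ _))
  have hML : M - L ≤ K := by
    have e1 := abs_le.1 (h1 a)
    have e2 := abs_le.1 (h1 b)
    have e3 := abs_le.1 (h2 a b)
    rcases max_choice (C a) 0 with h | h <;> rcases min_choice (C b) 0 with h' | h' <;>
      rw [h] at hM <;> rw [h'] at hL <;> subst hM <;> subst hL <;> linarith [e1.1, e1.2, e2.1, e2.2, e3.1, e3.2]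
  have key : ∀ j, r j * C j ≤ max (r j) 0 * M + max (-r j) 0 * (-L) := by
    intro j
    rcases le_total 0 (r j) with h | h
    · rw [max_eq_left h, max_eq_right (by linarith)]
      have := mul_le_mul_of_nonneg_left (hCM j) h
      linarith
    · rw [max_eq_right h, max_eq_left (by linarith)]
      have := mul_le_mul_of_nonneg_left (hCL j) (neg_nonneg.2 h)
      linarith
  have key2 : ∀ j, -(r j * C j) ≤ max (r j) 0 * (-L) + max (-r j) 0 * M := by
    intro j
    rcases le_total 0 (r j) with h | h
    · rw [max_eq_left h, max_eq_right (by linarith)]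
      have := mul_le_mul_of_nonneg_left (hCL j) h
      linarith
    · rw [max_eq_right h, max_eq_left (by linarith)]
      have := mul_le_mul_of_nonneg_left (hCM j) (neg_nonneg.2 h)
      linarith
  have s1 : ∑ j, r j * C j ≤ (∑ j, max (r j) 0) * M + (∑ j, max (-r j) 0) * (-L) := by
    rw [Finset.sum_mul, Finset.sum_mul, ← Finset.sum_add_distrib]
    exact Finset.sum_le_sum fun j _ => key j
  have s2 : -∑ j, r j * C j ≤ (∑ j, max (r j) 0) * (-L) + (∑ j, max (-r j) 0) * M := by
    rw [Finset.sum_mul, Finset.sum_mul, ← Finset.sum_add_distrib, ← Finset.sum_neg_distrib]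
    exact Finset.sum_le_sum fun j _ => key2 j
  have t1 := mul_le_mul_of_nonneg_right hp hM0
  have t2 := mul_le_mul_of_nonneg_right hn (neg_nonneg.2 hL0)
  have t3 := mul_le_mul_of_nonneg_right hp (neg_nonneg.2 hL0)
  have t4 := mul_le_mul_of_nonneg_right hn hM0
  have t5 := mul_le_mul_of_nonneg_left hML hc
  rw [abs_le]
  constructor <;> linarith

theorem det_bound : ∀ (m : ℕ) (A : Matrix (Fin m) (Fin m) ℚ) (c : Fin m → ℚ), RowBound A c →
    |A.det| ≤ ∏ i, c i := by
  intro m
  induction m with
  | zero => intro A c _; simp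
  | succ m ih =>
    intro A c h
    rw [Matrix.det_succ_row_zero, Fin.prod_univ_succ]
    have e : ∀ j : Fin (m + 1), (-1 : ℚ) ^ (j : ℕ) * A 0 j * (A.submatrix Fin.succ j.succAbove).det
        = A 0 j * ((-1 : ℚ) ^ (j : ℕ) * (A.submatrix Fin.succ j.succAbove).det) := fun j => by ring
    rw [Finset.sum_congr rfl fun j _ => e j]
    set C : Fin (m + 1) → ℚ := fun j => (-1 : ℚ) ^ (j : ℕ) * (A.submatrix Fin.succ j.succAbove).det
      with hC
    have hCdet : ∀ a b : Fin (m + 1), a ≠ b → C a - C b =
        (A.updateRow 0 (Pi.single a 1 - Pi.single b 1)).det := by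
      intro a b hab
      rw [Matrix.det_succ_row_zero]
      have : ∀ j : Fin (m + 1), (-1 : ℚ) ^ (j : ℕ) *
          (A.updateRow 0 (Pi.single a 1 - Pi.single b 1)) 0 j *
          ((A.updateRow 0 (Pi.single a 1 - Pi.single b 1)).submatrix Fin.succ j.succAbove).det
          = (Pi.single a (C a) : Fin (m + 1) → ℚ) j - (Pi.single b (C b) : Fin (m + 1) → ℚ) j := by
        intro j
        have e2 : (A.updateRow 0 (Pi.single a 1 - Pi.single b 1)).submatrix Fin.succ j.succAbove
            = A.submatrix Fin.succ j.succAbove := by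
          ext i k
          simp [Matrix.updateRow_apply]
        rw [e2, Matrix.updateRow_self]
        simp only [Pi.sub_apply, Pi.single_apply, hC]
        by_cases h1 : j = a
        · subst h1
          simp [hab]
        · by_cases h2 : j = b
          · subst h2
            simp [h1]
          · simp [h1, h2]
      rw [Finset.sum_congr rfl fun j _ => this j, Finset.sum_sub_distrib]
      simp
    refine comb_bound (A 0) C (c 0) _ (h 0).1 (h 0).2 ?_ ?_
    · intro j
      simp only [hC, abs_mul, abs_pow, abs_neg, abs_one, one_pow, one_mul]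
      exact ih _ _ (h.minor j)
    · intro a b
      by_cases hab : a = b
      · subst hab
        rw [sub_self, abs_zero]
        exact Finset.prod_nonneg fun i _ => h.nonneg i.succ
      · rw [hCdet a b hab]
        obtain ⟨b', rfl⟩ := Fin.exists_succAbove_eq (Ne.symm hab)
        set B := A.updateRow 0 (Pi.single a 1 - Pi.single (a.succAbove b') 1) with hB
        have d1 : (B.updateCol (a.succAbove b') (fun k => B k (a.succAbove b') + B k a)).det = B.det :=
          Matrix.det_updateCol_add_self B (Ne.symm hab)
        rw [← d1, Matrix.det_succ_row_zero, Finset.sum_eq_single a]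
        · have e3 : (B.updateCol (a.succAbove b') (fun k => B k (a.succAbove b') + B k a)).submatrix
              Fin.succ a.succAbove =
              (A.updateCol (a.succAbove b') (fun k => A k (a.succAbove b') + A k a)).submatrix
              Fin.succ a.succAbove := by
            ext i k
            simp [hB, Matrix.updateCol_apply, Matrix.updateRow_apply]
          have e4 : (B.updateCol (a.succAbove b') (fun k => B k (a.succAbove b') + B k a)) 0 a = 1 := by
            rw [Matrix.updateCol_ne hab]
            simp [hB, Pi.single_apply, hab]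
          rw [e3, e4, mul_one, abs_mul, abs_pow, abs_neg, abs_one, one_pow, one_mul]
          exact ih _ _ (h.merge a b')
        · intro j _ hj
          have : (B.updateCol (a.succAbove b') (fun k => B k (a.succAbove b') + B k a)) 0 j = 0 := by
            by_cases hj2 : j = a.succAbove b'
            · subst hj2
              rw [Matrix.updateCol_self]
              simp [hB, Pi.single_apply, hab]
            · rw [Matrix.updateCol_ne hj2]
              simp [hB, Pi.single_apply, hj, hj2]
          rw [this]; ring
        · intro h; exact absurd (mem_univ _) h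

end Pool.Agent.E8helper66.Schinzel
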